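import Pool.Agent.TH843.PY.Stm

/-!
# Job 209 (PYTH-E): the lengths of sums of squares of integers in totally real fields are unbounded
-/

set_option autoImplicit false
open Polynomial NumberField

namespace Pool.Agent.TH644.J209

open Pool.Agent.TH843.PY

/-- `O_F / m` is reduced. -/
def Red (F : IntermediateField ℚ ℂ) (m : ℕ) : Prop :=
  ∀ u ∈ F, IsIntegral ℤ ((m : ℂ) * u ^ 2) → IsIntegral ℤ u

lemma isInt_nat (n : ℕ) : IsIntegral ℤ (n : ℂ) := isIntegral_natCast n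

lemma isInt_of_sq {z : ℂ} (h : IsIntegral ℤ (z ^ 2)) : IsIntegral ℤ z :=
  IsIntegral.of_pow (by norm_num) h

/-- The field `F(s)` with `s ^ 2 = p`. -/
noncomputable def ext (F : IntermediateField ℚ ℂ) (s : ℂ) : IntermediateField ℚ ℂ :=
  F ⊔ IntermediateField.adjoin ℚ {s}

lemma le_ext (F : IntermediateField ℚ ℂ) (s : ℂ) : F ≤ ext F s := le_sup_left

lemma mem_ext_self (F : IntermediateField ℚ ℂ) (s : ℂ) : s ∈ ext F s :=
  (le_sup_right : IntermediateField.adjoin ℚ {s} ≤ ext F s)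
    (IntermediateField.mem_adjoin_simple_self ℚ s)

section

variable {F : IntermediateField ℚ ℂ} {s : ℂ} {p : ℕ}

/-- explicit form of `F(s)`. -/
noncomputable def expl (F : IntermediateField ℚ ℂ) (s : ℂ) (p : ℕ) (hs : s ^ 2 = p)
    (hF : s ∉ F) : IntermediateField ℚ ℂ where
  carrier := {z | ∃ a ∈ F, ∃ b ∈ F, z = a + b * s}
  mul_mem' := by
    rintro x y ⟨a, ha, b, hb, rfl⟩ ⟨c, hc, d, hd, rfl⟩
    refine ⟨a * c + b * d * p, ?_, a * d + b * c, ?_, ?_⟩
    · exact F.add_mem (F.mul_mem ha hc) (F.mul_mem (F.mul_mem hb hd) (natCast_mem F p))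
    · exact F.add_mem (F.mul_mem ha hd) (F.mul_mem hb hc)
    · rw [← hs]; ring
  one_mem' := ⟨1, F.one_mem, 0, F.zero_mem, by ring⟩
  add_mem' := by
    rintro x y ⟨a, ha, b, hb, rfl⟩ ⟨c, hc, d, hd, rfl⟩
    exact ⟨a + c, F.add_mem ha hc, b + d, F.add_mem hb hd, by ring⟩
  zero_mem' := ⟨0, F.zero_mem, 0, F.zero_mem, by ring⟩
  algebraMap_mem' := fun r => ⟨_, F.algebraMap_mem r, 0, F.zero_mem, by ring⟩
  inv_mem' := by
    rintro x ⟨a, ha, b, hb, rfl⟩
    by_cases h0 : a + b * s = 0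
    · rw [h0]; exact ⟨0, F.zero_mem, 0, F.zero_mem, by simp⟩
    have h1 : a - b * s ≠ 0 := by
      intro h1
      by_cases hb0 : b = 0
      · subst hb0
        apply h0
        linear_combination h1
      · apply hF
        have : s = a / b := by
          field_simp
          linear_combination -h1
        rw [this]
        exact F.div_mem ha hb
    have hN : a ^ 2 - b ^ 2 * p ≠ 0 := by
      have : a ^ 2 - b ^ 2 * p = (a + b * s) * (a - b * s) := by rw [← hs]; ring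
      rw [this]
      exact mul_ne_zero h0 h1
    refine ⟨a / (a ^ 2 - b ^ 2 * p), ?_, -b / (a ^ 2 - b ^ 2 * p), ?_, ?_⟩
    · exact F.div_mem ha (F.sub_mem (pow_mem ha 2) (F.mul_mem (pow_mem hb 2) (natCast_mem F p)))
    · exact F.div_mem (F.neg_mem hb)
        (F.sub_mem (pow_mem ha 2) (F.mul_mem (pow_mem hb 2) (natCast_mem F p)))
    · field_simp
      rw [← hs]; ring

lemma mem_ext (hs : s ^ 2 = p) (hF : s ∉ F) {z : ℂ} (hz : z ∈ ext F s) :
    ∃ a ∈ F, ∃ b ∈ F, z = a + b * s := by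
  have h : ext F s ≤ expl F s p hs hF := by
    apply sup_le
    · intro a ha
      exact ⟨a, ha, 0, F.zero_mem, by ring⟩
    · rw [IntermediateField.adjoin_simple_le_iff]
      exact ⟨0, F.zero_mem, 1, F.one_mem, by ring⟩
  exact h hz

lemma coef_unique (hF : s ∉ F) {a b c d : ℂ} (ha : a ∈ F) (hb : b ∈ F) (hc : c ∈ F) (hd : d ∈ F)
    (h : a + b * s = c + d * s) : a = c ∧ b = d := by
  have hbd : b = d := by
    by_contra hne
    apply hF
    have hne' : b - d ≠ 0 := sub_ne_zero.mpr hne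
    have : s = (c - a) / (b - d) := by
      field_simp
      linear_combination h
    rw [this]
    exact F.div_mem (F.sub_mem hc ha) (F.sub_mem hb hd)
  subst hbd
  exact ⟨by linear_combination h, rfl⟩

lemma coef_unique' (hF : s ∉ F) {a b c d : ℂ} (ha : a ∈ F) (hb : b ∈ F) (hc : c ∈ F) (hd : d ∈ F)
    (h : a + b * ((1 + s) / 2) = c + d * ((1 + s) / 2)) : a = c ∧ b = d := by
  have h2 : (2 : ℂ) ∈ F := by exact_mod_cast natCast_mem F 2
  have := coef_unique hF (F.add_mem ha (F.div_mem hb h2)) (F.div_mem hb h2)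
    (F.add_mem hc (F.div_mem hd h2)) (F.div_mem hd h2) (by linear_combination h)
  obtain ⟨h3, h4⟩ := this
  have h5 : b = d := by linear_combination 2 * h4
  subst h5
  exact ⟨by linear_combination h3, rfl⟩

/-- conjugation. -/
lemma conj_root (hs : s ^ 2 = p) (hF : s ∉ F) (P : F[X]) (h : aeval s P = 0) :
    aeval (-s) P = 0 := by
  set Q : F[X] := X ^ 2 - C (p : F) with hQ
  have hQm : Q.Monic := by
    rw [hQ]; exact monic_X_pow_sub_C _ (by norm_num)
  have hQd : Q.natDegree = 2 := by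
    rw [hQ]; exact natDegree_X_pow_sub_C
  have hQs : ∀ t : ℂ, t ^ 2 = p → aeval t Q = 0 := by
    intro t ht
    rw [hQ]
    simp [ht]
  have hdiv := modByMonic_add_div P Q
  have hdeg : (P %ₘ Q).natDegree ≤ 1 := by
    have := natDegree_modByMonic_lt P hQm (by
      intro h1
      rw [h1] at hQd
      simp at hQd)
    omega
  obtain ⟨α, β, hab⟩ := exists_eq_X_add_C_of_natDegree_le_one hdeg
  have h1 : aeval s (P %ₘ Q) = 0 := by
    have := congrArg (aeval s) hdiv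
    rw [map_add, map_mul, hQs s hs, zero_mul, add_zero] at this
    rw [this, h]
  rw [hab] at h1
  simp only [map_add, map_mul, aeval_C, aeval_X] at h1
  have h2 := coef_unique (F := F) (s := s) hF (a := (β : ℂ)) (b := (α : ℂ)) (c := 0) (d := 0)
    β.2 α.2 F.zero_mem F.zero_mem (by
      have h3 : (algebraMap F ℂ) α * s + (algebraMap F ℂ) β = 0 := h1
      have h4 : (algebraMap F ℂ) α = (α : ℂ) := rfl
      have h5 : (algebraMap F ℂ) β = (β : ℂ) := rfl
      rw [h4, h5] at h3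
      linear_combination h3)
  have hα : α = 0 := by exact_mod_cast h2.2
  have hβ : β = 0 := by exact_mod_cast h2.1
  have h6 : P %ₘ Q = 0 := by rw [hab, hα, hβ]; simp
  have h7 : P = Q * (P /ₘ Q) := by
    rw [h6, zero_add] at hdiv
    exact hdiv.symm
  rw [h7, map_mul, hQs (-s) (by rw [neg_sq]; exact hs), zero_mul]

lemma conj_int (hs : s ^ 2 = p) (hF : s ∉ F) {a b : ℂ} (ha : a ∈ F) (hb : b ∈ F)
    (h : IsIntegral ℤ (a + b * s)) : IsIntegral ℤ (a - b * s) := by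
  obtain ⟨f, hf, hf0⟩ := h
  refine ⟨f, hf, ?_⟩
  set g : F[X] := C (⟨b, hb⟩ : F) * X + C (⟨a, ha⟩ : F) with hg
  set P : F[X] := (f.map (Int.castRingHom F)).comp g with hP
  have key : ∀ t : ℂ, aeval t P = eval₂ (algebraMap ℤ ℂ) (a + b * t) f := by
    intro t
    rw [hP, aeval_comp]
    have h1 : aeval t g = a + b * t := by
      rw [hg]
      simp only [map_add, map_mul, aeval_C, aeval_X]
      have h4 : (algebraMap F ℂ) ⟨b, hb⟩ = b := rfl
      have h5 : (algebraMap F ℂ) ⟨a, ha⟩ = a := rfl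
      rw [h4, h5]; ring
    rw [h1, aeval_def, eval₂_map]
    congr 1
  have h1 := conj_root hs hF P (by rw [key]; exact hf0)
  rw [key] at h1
  have : a - b * s = a + b * -s := by ring
  rw [this]; exact h1

/-- the ring of integers of `F(s)`. -/
lemma int_struct (hs : s ^ 2 = p) (hF : s ∉ F) (k : ℕ) (hk : p = 4 * k + 1)
    (hp : Red F p) (h2 : Red F 2) {z : ℂ} (hz : z ∈ ext F s) (hzi : IsIntegral ℤ z) :
    ∃ a ∈ F, ∃ b ∈ F, IsIntegral ℤ a ∧ IsIntegral ℤ b ∧ z = a + b * ((1 + s) / 2) := by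
  obtain ⟨a', ha', b', hb', rfl⟩ := mem_ext hs hF hz
  have hc := conj_int hs hF ha' hb' hzi
  have h2F : (2 : ℂ) ∈ F := by exact_mod_cast natCast_mem F 2
  have hT : IsIntegral ℤ (2 * a') := by
    have := hzi.add hc
    have e : a' + b' * s + (a' - b' * s) = 2 * a' := by ring
    rwa [e] at this
  have hN : IsIntegral ℤ (a' ^ 2 - p * b' ^ 2) := by
    have := hzi.mul hc
    have e : (a' + b' * s) * (a' - b' * s) = a' ^ 2 - p * b' ^ 2 := by rw [← hs]; ring
    rwa [e] at this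
  have h4 : IsIntegral ℤ (4 : ℂ) := by exact_mod_cast isInt_nat 4
  have h2i : IsIntegral ℤ (2 : ℂ) := by exact_mod_cast isInt_nat 2
  have hki : IsIntegral ℤ (k : ℂ) := isInt_nat k
  have hpi : IsIntegral ℤ (p : ℂ) := isInt_nat p
  have hpk : (p : ℂ) = 4 * k + 1 := by exact_mod_cast hk
  have hB : IsIntegral ℤ (2 * b') := by
    apply hp (2 * b') (F.mul_mem h2F hb')
    have e : (p : ℂ) * (2 * b') ^ 2 = (2 * a') ^ 2 - 4 * (a' ^ 2 - p * b' ^ 2) := by ring
    rw [e]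
    exact (hT.pow 2).sub (h4.mul hN)
  have hA : IsIntegral ℤ (a' - b') := by
    apply h2 (a' - b') (F.sub_mem ha' hb')
    have e : ((2 : ℕ) : ℂ) * (a' - b') ^ 2 =
        2 * (a' ^ 2 - p * b' ^ 2) + 2 * k * (2 * b') ^ 2 - (2 * b') * (2 * a' - 2 * b') := by
      rw [hpk]; push_cast; ring
    rw [e]
    exact ((h2i.mul hN).add ((h2i.mul hki).mul (hB.pow 2))).sub (hB.mul (hT.sub hB))
  exact ⟨a' - b', F.sub_mem ha' hb', 2 * b', F.mul_mem h2F hb', hA, hB, by ring⟩

lemma w_int (hs : s ^ 2 = p) (k : ℕ) (hk : p = 4 * k + 1) : IsIntegral ℤ ((1 + s) / 2) := by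
  have h1 : ((1 + s) / 2) ^ 2 = (1 + s) / 2 + k := by
    have hpk : (p : ℂ) = 4 * k + 1 := by exact_mod_cast hk
    rw [hpk] at hs
    linear_combination hs / 4
  refine ⟨X ^ 2 - X - C (k : ℤ), ?_, ?_⟩
  · monicity!
  · simp only [eval₂_sub, eval₂_X_pow, eval₂_X, eval₂_C]
    rw [h1]
    simp

lemma red_two (hs : s ^ 2 = p) (hF : s ∉ F) (k : ℕ) (hk : p = 4 * k + 1)
    (hp : Red F p) (h2 : Red F 2) : Red (ext F s) 2 := by
  intro u hu hui
  have hpk : (p : ℂ) = 4 * k + 1 := by exact_mod_cast hk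
  have h2i : IsIntegral ℤ (2 : ℂ) := by exact_mod_cast isInt_nat 2
  have hki : IsIntegral ℤ (k : ℂ) := isInt_nat k
  have h2F : (2 : ℂ) ∈ F := by exact_mod_cast natCast_mem F 2
  have hkF : (k : ℂ) ∈ F := natCast_mem F k
  have h2E : (2 : ℂ) ∈ ext F s := le_ext F s h2F
  have hzi : IsIntegral ℤ (2 * u) := by
    apply isInt_of_sq
    have e : (2 * u) ^ 2 = 2 * (((2 : ℕ) : ℂ) * u ^ 2) := by push_cast; ring
    rw [e]; exact h2i.mul hui
  obtain ⟨a, ha, b, hb, hai, hbi, hab⟩ := int_struct hs hF k hk hp h2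
    ((ext F s).mul_mem h2E hu) hzi
  obtain ⟨e, he, f, hf, hei, hfi, hef⟩ := int_struct (z := ((2 : ℕ) : ℂ) * u ^ 2) hs hF k hk hp h2
    ((ext F s).mul_mem (natCast_mem (ext F s) 2) (pow_mem hu 2)) hui
  have hw : ((1 + s) / 2) ^ 2 = (1 + s) / 2 + k := by
    rw [hpk] at hs
    linear_combination hs / 4
  have hcmp := coef_unique' hF (a := a ^ 2 + k * b ^ 2) (b := b ^ 2 + 2 * a * b) (c := 2 * e)
    (d := 2 * f)
    (F.add_mem (pow_mem ha 2) (F.mul_mem hkF (pow_mem hb 2)))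
    (F.add_mem (pow_mem hb 2) (F.mul_mem (F.mul_mem h2F ha) hb))
    (F.mul_mem h2F he) (F.mul_mem h2F hf) (by
      have h1 : (2 * u) ^ 2 = 2 * (((2 : ℕ) : ℂ) * u ^ 2) := by push_cast; ring
      rw [hab, hef] at h1
      linear_combination h1 - b ^ 2 * hw)
  obtain ⟨h3, h4⟩ := hcmp
  have hb2 : IsIntegral ℤ (b / 2) := by
    apply h2 (b / 2) (F.div_mem hb h2F)
    have e1 : ((2 : ℕ) : ℂ) * (b / 2) ^ 2 = f - a * b := by
      push_cast
      linear_combination h4 / 2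
    rw [e1]; exact hfi.sub (hai.mul hbi)
  have ha2 : IsIntegral ℤ (a / 2) := by
    apply h2 (a / 2) (F.div_mem ha h2F)
    have e1 : ((2 : ℕ) : ℂ) * (a / 2) ^ 2 = e - k * (2 * (b / 2) ^ 2) := by
      push_cast
      linear_combination h3 / 2
    rw [e1]; exact hei.sub (hki.mul (h2i.mul (hb2.pow 2)))
  have : u = a / 2 + b / 2 * ((1 + s) / 2) := by linear_combination hab / 2
  rw [this]
  exact ha2.add (hb2.mul (w_int hs k hk))

lemma int_cancel {m l : ℕ} (hml : Nat.Coprime m l) {y : ℂ} (hy : IsIntegral ℤ y)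
    (h : IsIntegral ℤ (m * (y / l))) (hl : (l : ℂ) ≠ 0) : IsIntegral ℤ (y / l) := by
  have hb := Nat.isCoprime_iff_coprime.mpr hml
  obtain ⟨u, v, huv⟩ := hb
  have huv' : (u : ℂ) * m + v * l = 1 := by exact_mod_cast huv
  have : y / l = u * (m * (y / l)) + v * y := by
    calc y / l = (u * m + v * l) * (y / l) := by rw [huv', one_mul]
      _ = u * (m * (y / l)) + v * y := by field_simp
  rw [this]
  exact ((isIntegral_intCast u).mul h).add ((isIntegral_intCast v).mul hy)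

lemma red_l (hs : s ^ 2 = p) (hF : s ∉ F) (k : ℕ) (hk : p = 4 * k + 1)
    (hp : Red F p) (h2 : Red F 2) {l : ℕ} (hl2 : Nat.Coprime 2 l) (hlp : Nat.Coprime p l)
    (hl0 : l ≠ 0)
    (hl : Red F l) : Red (ext F s) l := by
  intro u hu hui
  have hpk : (p : ℂ) = 4 * k + 1 := by exact_mod_cast hk
  have hlC : (l : ℂ) ≠ 0 := by exact_mod_cast hl0
  have h2i : IsIntegral ℤ (2 : ℂ) := by exact_mod_cast isInt_nat 2
  have h4i : IsIntegral ℤ (4 : ℂ) := by exact_mod_cast isInt_nat 4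
  have hli : IsIntegral ℤ (l : ℂ) := isInt_nat l
  have hki : IsIntegral ℤ (k : ℂ) := isInt_nat k
  have hpi : IsIntegral ℤ (p : ℂ) := isInt_nat p
  have h2F : (2 : ℂ) ∈ F := by exact_mod_cast natCast_mem F 2
  have hkF : (k : ℂ) ∈ F := natCast_mem F k
  have hlF : (l : ℂ) ∈ F := natCast_mem F l
  have hzi : IsIntegral ℤ (l * u) := by
    apply isInt_of_sq
    have e : (l * u) ^ 2 = l * (l * u ^ 2) := by ring
    rw [e]; exact hli.mul hui
  obtain ⟨a, ha, b, hb, hai, hbi, hab⟩ := int_struct (z := (l : ℂ) * u) hs hF k hk hp h2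
    ((ext F s).mul_mem (natCast_mem (ext F s) l) hu) hzi
  obtain ⟨e, he, f, hf, hei, hfi, hef⟩ := int_struct (z := (l : ℂ) * u ^ 2) hs hF k hk hp h2
    ((ext F s).mul_mem (natCast_mem (ext F s) l) (pow_mem hu 2)) hui
  have hw : ((1 + s) / 2) ^ 2 = (1 + s) / 2 + k := by
    rw [hpk] at hs
    linear_combination hs / 4
  have hcmp := coef_unique' hF (a := a ^ 2 + k * b ^ 2) (b := b ^ 2 + 2 * a * b) (c := l * e)
    (d := l * f)
    (F.add_mem (pow_mem ha 2) (F.mul_mem hkF (pow_mem hb 2)))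
    (F.add_mem (pow_mem hb 2) (F.mul_mem (F.mul_mem h2F ha) hb))
    (F.mul_mem hlF he) (F.mul_mem hlF hf) (by
      have h1 : (l * u) ^ 2 = l * (l * u ^ 2) := by ring
      rw [hab, hef] at h1
      linear_combination h1 - b ^ 2 * hw)
  obtain ⟨h3, h4⟩ := hcmp
  -- b ^ 4 / l integral
  have hb4 : IsIntegral ℤ (b ^ 4 / l) := by
    apply int_cancel hlp (hbi.pow 4) ?_ hlC
    have e1 : (p : ℂ) * (b ^ 4 / l) = (4 * e + 2 * f) * b ^ 2 - l * f ^ 2 := by
      have e2 : (2 * a + b) ^ 2 + p * b ^ 2 = l * (4 * e + 2 * f) := by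
        rw [hpk]
        linear_combination 4 * h3 + 2 * h4
      have e3 : b * (b + 2 * a) = l * f := by linear_combination h4
      field_simp
      linear_combination b ^ 2 * e2 - (b * (b + 2 * a) + l * f) * e3
    rw [e1]
    exact ((((h4i.mul hei).add (h2i.mul hfi)).mul (hbi.pow 2))).sub (hli.mul (hfi.pow 2))
  have hb2 : IsIntegral ℤ (b ^ 2 / l) := by
    apply hl _ (F.div_mem (pow_mem hb 2) hlF)
    have e1 : (l : ℂ) * (b ^ 2 / l) ^ 2 = b ^ 4 / l := by field_simp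
    rw [e1]; exact hb4
  have hb1 : IsIntegral ℤ (b / l) := by
    apply hl _ (F.div_mem hb hlF)
    have e1 : (l : ℂ) * (b / l) ^ 2 = b ^ 2 / l := by field_simp
    rw [e1]; exact hb2
  have hc1 : IsIntegral ℤ ((2 * a + b) / l) := by
    apply hl _ (F.div_mem (F.add_mem (F.mul_mem h2F ha) hb) hlF)
    have e1 : (l : ℂ) * ((2 * a + b) / l) ^ 2 = (4 * e + 2 * f) - p * (b ^ 2 / l) := by
      have e2 : (2 * a + b) ^ 2 + p * b ^ 2 = l * (4 * e + 2 * f) := by
        rw [hpk]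
        linear_combination 4 * h3 + 2 * h4
      field_simp
      linear_combination e2
    rw [e1]
    exact (((h4i.mul hei).add (h2i.mul hfi))).sub (hpi.mul hb2)
  have ha1 : IsIntegral ℤ (a / l) := by
    apply int_cancel hl2 hai ?_ hlC
    have e1 : ((2 : ℕ) : ℂ) * (a / l) = (2 * a + b) / l - b / l := by
      push_cast; field_simp; ring
    rw [e1]; exact hc1.sub hb1
  have : u = a / l + b / l * ((1 + s) / 2) := by
    field_simp
    linear_combination 2 * hab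
  rw [this]
  exact ha1.add (hb1.mul (w_int hs k hk))

end

lemma red_bot (l : ℕ) (hl : l.Prime) : Red ⊥ l := by
  intro u hu hui
  obtain ⟨q, rfl⟩ := IntermediateField.mem_bot.mp hu
  have hli : IsIntegral ℤ (l : ℂ) := isInt_nat l
  have e1 : (l : ℂ) * (algebraMap ℚ ℂ q) ^ 2 = algebraMap ℚ ℂ (l * q ^ 2) := by
    simp
  rw [e1] at hui
  have h1 : IsIntegral ℤ ((l : ℚ) * q ^ 2) :=
    (isIntegral_algebraMap_iff (algebraMap ℚ ℂ).injective).mp hui
  have h2 : IsIntegral ℤ q := by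
    obtain ⟨n, hn⟩ := IsIntegrallyClosed.isIntegral_iff.mp h1
    have hn' : (n : ℚ) = l * q ^ 2 := by simpa using hn
    -- `q = a / b`
    have hq0 : (q.den : ℚ) ≠ 0 := by exact_mod_cast q.den_nz
    have h3 : (n : ℚ) * q.den ^ 2 = l * q.num ^ 2 := by
      have h4 : q * q.den = q.num := Rat.mul_den_eq_num q
      rw [hn', ← h4]; ring
    have h5 : n * (q.den : ℤ) ^ 2 = l * q.num ^ 2 := by exact_mod_cast h3
    have h6 : (q.den : ℤ) ^ 2 ∣ l := by
      have h7 : (q.den : ℤ) ^ 2 ∣ l * q.num ^ 2 := ⟨n, by linarith⟩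
      have h8 : IsCoprime ((q.den : ℤ) ^ 2) (q.num ^ 2) := by
        apply IsCoprime.pow
        apply IsCoprime.symm
        rw [Int.isCoprime_iff_gcd_eq_one]
        have := q.reduced
        simpa [Int.gcd, Nat.Coprime] using this
      exact h8.dvd_of_dvd_mul_right h7
    have h9 : q.den ^ 2 ∣ l := by exact_mod_cast h6
    have h10 : q.den = 1 := by
      rcases (Nat.dvd_prime hl).mp h9 with h | h
      · nlinarith [q.den_pos]
      · exfalso
        rw [← h] at hl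
        exact Nat.Prime.not_prime_pow (le_refl 2) hl
    have h11 : q = q.num := by
      have := Rat.mul_den_eq_num q
      rw [h10] at this
      simpa using this
    rw [h11]
    exact isIntegral_intCast _
  exact h2.map (Algebra.ofId ℚ ℂ |>.restrictScalars ℤ)

lemma sqrt_not_mem {F : IntermediateField ℚ ℂ} {s : ℂ} {p : ℕ} (hpp : p.Prime) (hs : s ^ 2 = p)
    (hp : Red F p) : s ∉ F := by
  intro hF
  have hp0 : (p : ℂ) ≠ 0 := by exact_mod_cast hpp.ne_zero
  have h1 : IsIntegral ℤ (s / p) := by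
    apply hp _ (F.div_mem hF (natCast_mem F p))
    have : (p : ℂ) * (s / p) ^ 2 = 1 := by
      field_simp
      exact hs
    rw [this]; exact isIntegral_one
  have h2 := h1.pow 2
  have e : (s / p) ^ 2 = algebraMap ℚ ℂ (1 / p) := by
    rw [div_pow, hs]
    simp
    field_simp
  rw [e] at h2
  have h3 := (isIntegral_algebraMap_iff (algebraMap ℚ ℂ).injective).mp h2
  obtain ⟨n, hn⟩ := IsIntegrallyClosed.isIntegral_iff.mp h3
  have hn' : (n : ℚ) * p = 1 := by
    have h4 : (n : ℚ) = 1 / p := by simpa using hn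
    have hpq : (p : ℚ) ≠ 0 := by exact_mod_cast hpp.ne_zero
    rw [h4]; field_simp
  have h5 : n * (p : ℤ) = 1 := by exact_mod_cast hn'
  have h6 : (p : ℤ) ∣ 1 := ⟨n, by linarith⟩
  have h7 : p ∣ 1 := by exact_mod_cast h6
  exact hpp.one_lt.ne' (Nat.dvd_one.mp h7)

lemma fd_ext (F : IntermediateField ℚ ℂ) [FiniteDimensional ℚ F] (s : ℂ) (hs : IsIntegral ℚ s) :
    FiniteDimensional ℚ (ext F s) := by
  have := IntermediateField.adjoin.finiteDimensional hs
  exact IntermediateField.finiteDimensional_sup F _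

lemma tr_ext {F : IntermediateField ℚ ℂ} {s : ℂ} {p : ℕ} (hTR : TR F) (hs : s ^ 2 = p)
    (hp : 0 < p) (hF : s ∉ F) : TR (ext F s) := by
  intro φ z
  obtain ⟨a, ha, b, hb, hz⟩ := mem_ext hs hF z.2
  have e : z = (⟨a, le_ext F s ha⟩ : ext F s) + (⟨b, le_ext F s hb⟩ : ext F s) *
      (⟨s, mem_ext_self F s⟩ : ext F s) := by
    apply Subtype.ext
    simpa using hz
  set ψ : F →+* ℂ := φ.comp (IntermediateField.inclusion (le_ext F s)).toRingHom with hψ
  have h1 : φ (⟨a, le_ext F s ha⟩ : ext F s) = ψ ⟨a, ha⟩ := rfl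
  have h2 : φ (⟨b, le_ext F s hb⟩ : ext F s) = ψ ⟨b, hb⟩ := rfl
  have h3 := hTR ψ ⟨a, ha⟩
  have h4 := hTR ψ ⟨b, hb⟩
  set t := φ (⟨s, mem_ext_self F s⟩ : ext F s) with ht
  have h5 : t ^ 2 = p := by
    rw [ht, ← map_pow]
    have : (⟨s, mem_ext_self F s⟩ : ext F s) ^ 2 = (p : ext F s) := by
      apply Subtype.ext
      simpa using hs
    rw [this]; simp
  have h6 : t.im = 0 := by
    have h7 := congrArg Complex.re h5
    have h8 := congrArg Complex.im h5
    simp [pow_two, Complex.mul_re, Complex.mul_im] at h7 h8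
    have hp' : (0 : ℝ) < p := by exact_mod_cast hp
    rcases h8 with h8
    have h9 : t.re * t.im = 0 := by linarith
    rcases mul_eq_zero.mp h9 with h | h
    · exfalso
      rw [h] at h7
      nlinarith [mul_self_nonneg t.im]
    · exact h
  rw [e, map_add, map_mul, h1, h2, Complex.add_im, Complex.mul_im, h3, h4, h6]
  ring

lemma size_real {ι : Type*} [Fintype ι] (α β : ι → ℝ) (X s c k : ℝ)
    (hk : s ^ 2 = 4 * k + 1) (hs : 4 ≤ s) (hsX : 19 * X < s ^ 2) (hc1 : s ≤ 2 * c + 2)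
    (hc2 : 2 * c ≤ s)
    (h1 : ∑ i, (α i ^ 2 + k * β i ^ 2) = X + c ^ 2 + k)
    (h2 : ∑ i, (β i ^ 2 + 2 * α i * β i) = 2 * c + 1) :
    ∑ i, β i ^ 2 < 2 := by
  set A := ∑ i, α i ^ 2 with hA
  set B := ∑ i, β i ^ 2 with hB
  set D := ∑ i, α i * β i with hD
  have e1 : A + k * B = X + c ^ 2 + k := by
    rw [← h1, Finset.sum_add_distrib, ← Finset.mul_sum]
  have e2 : B + 2 * D = 2 * c + 1 := by
    rw [← h2, Finset.sum_add_distrib, hD, Finset.mul_sum]
    congr 1
    exact Finset.sum_congr rfl (fun i _ => by ring)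
  have h0 : 0 ≤ ∑ i, (5 / 2 * α i + (5 / 4 - 3 * s / 4) * β i) ^ 2 :=
    Finset.sum_nonneg (fun i _ => sq_nonneg _)
  have e3 : ∑ i, (5 / 2 * α i + (5 / 4 - 3 * s / 4) * β i) ^ 2 =
      25 / 4 * A + 5 * (5 / 4 - 3 * s / 4) * D + (5 / 4 - 3 * s / 4) ^ 2 * B := by
    rw [hA, hB, hD, Finset.mul_sum, Finset.mul_sum, Finset.mul_sum, ← Finset.sum_add_distrib,
      ← Finset.sum_add_distrib]
    exact Finset.sum_congr rfl (fun i _ => by ring)
  rw [e3] at h0
  have hA' : A = X + c ^ 2 + k - k * B := by linarith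
  have hD' : D = (2 * c + 1 - B) / 2 := by linarith
  have hk' : k = (s ^ 2 - 1) / 4 := by linarith
  rw [hA', hD', hk'] at h0
  obtain ⟨δ, hδ⟩ : ∃ δ, δ = c + 1 / 2 - s / 2 := ⟨_, rfl⟩
  have hc : c = δ - 1 / 2 + s / 2 := by linarith
  have hδ1 : -(1 / 2) ≤ δ := by linarith
  have hδ2 : δ ≤ 1 / 2 := by linarith
  rw [hc] at h0
  have h3 : s ^ 2 * B ≤ 25 / 4 * X + 5 / 4 * (s + δ) ^ 2 + 5 * δ ^ 2 := by nlinarith
  have h4 : (s + δ) ^ 2 ≤ (s + 1 / 2) ^ 2 := by
    apply pow_le_pow_left₀ <;> linarith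
  have h5 : δ ^ 2 ≤ 1 / 4 := by nlinarith
  have h6 : s ^ 2 * B < s ^ 2 * 2 := by nlinarith
  exact lt_of_mul_lt_mul_left h6 (sq_nonneg s)

lemma int_small {F : Type*} [Field F] [NumberField F] {t : F} (ht : IsIntegral ℤ t)
    (h : ∀ φ : F →+* ℂ, ‖φ t‖ < 1) : t = 0 := by
  by_contra h0
  obtain ⟨n, hn, h1⟩ := NumberField.Embeddings.pow_eq_one_of_norm_le_one _ ℂ h0 ht
    (fun φ => (h φ).le)
  obtain ⟨φ⟩ : Nonempty (F →+* ℂ) := inferInstance
  have h2 : ‖φ t‖ ^ n = 1 := by rw [← norm_pow, ← map_pow, h1, map_one, norm_one]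
  have h3 : ‖φ t‖ ^ n < 1 := pow_lt_one₀ (norm_nonneg _) (h φ) hn.ne'
  linarith

lemma step (F : IntermediateField ℚ ℂ) (hfd : FiniteDimensional ℚ F) (hTR : TR F) (h2 : Red F 2)
    (N : ℕ) (hN : ∀ l : ℕ, l.Prime → N < l → Red F l) (x : ℂ) (m : ℕ) (hx : SS F m x) (r : ℕ)
    (hr : ¬ SS F r x) :
    ∃ F' : IntermediateField ℚ ℂ, FiniteDimensional ℚ F' ∧ TR F' ∧ Red F' 2 ∧
      (∃ N' : ℕ, ∀ l : ℕ, l.Prime → N' < l → Red F' l) ∧
      ∃ x' : ℂ, (∃ m', SS F' m' x') ∧ ¬ SS F' (r + 1) x' := by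
  have : NumberField F := { to_charZero := inferInstance, to_finiteDimensional := hfd }
  obtain ⟨f0, hf0, hxsum⟩ := hx
  have hxF : x ∈ F := by
    rw [hxsum]
    exact sum_mem (fun i _ => pow_mem (hf0 i).1 2)
  set xF : F := ⟨x, hxF⟩ with hxFdef
  obtain ⟨M, hM⟩ : ∃ M : ℕ, ∀ φ : F →+* ℂ, (φ xF).re ≤ M := by
    obtain ⟨M, hM⟩ := (Set.finite_range (fun φ : F →+* ℂ => (φ xF).re)).bddAbove
    obtain ⟨M', hM'⟩ := exists_nat_ge M
    exact ⟨M', fun φ => (hM ⟨φ, rfl⟩).trans hM'⟩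
  obtain ⟨p, hpp, hpN, hmod⟩ :=
    Nat.exists_prime_gt_modEq_one (k := 4) (max N (100 * (M + 1))) (by norm_num)
  have hp1 : N < p := lt_of_le_of_lt (le_max_left _ _) hpN
  have hp2 : 100 * (M + 1) < p := lt_of_le_of_lt (le_max_right _ _) hpN
  obtain ⟨k, hk⟩ : ∃ k, p = 4 * k + 1 := ⟨p / 4, by
    have := hmod
    unfold Nat.ModEq at this
    omega⟩
  have hRp : Red F p := hN p hpp hp1
  set sr : ℝ := Real.sqrt p with hsr
  have hsr2 : sr ^ 2 = p := Real.sq_sqrt (Nat.cast_nonneg p)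
  have hsr0 : 0 ≤ sr := Real.sqrt_nonneg _
  set s : ℂ := (sr : ℂ) with hsdef
  have hs : s ^ 2 = p := by
    rw [hsdef, ← Complex.ofReal_pow, hsr2]; simp
  have hsF : s ∉ F := sqrt_not_mem hpp hs hRp
  have hpR : (100 * (M + 1) : ℝ) < p := by exact_mod_cast hp2
  have hM0 : (0 : ℝ) ≤ M := Nat.cast_nonneg M
  have hs4 : 4 ≤ sr := by
    by_contra hlt
    push Not at hlt
    nlinarith
  obtain ⟨c, hc1, hc2⟩ : ∃ c : ℕ, sr ≤ 2 * c + 2 ∧ 2 * (c : ℝ) ≤ sr := by
    refine ⟨⌊sr / 2⌋₊, ?_, ?_⟩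
    · have := Nat.lt_floor_add_one (sr / 2)
      linarith
    · have := Nat.floor_le (show 0 ≤ sr / 2 by linarith)
      linarith
  have hpk : (p : ℂ) = 4 * k + 1 := by exact_mod_cast hk
  have hpkR : (p : ℝ) = 4 * k + 1 := by exact_mod_cast hk
  have hw : ((1 + s) / 2) ^ 2 = (1 + s) / 2 + k := by
    have hs' := hs
    rw [hpk] at hs'
    linear_combination hs' / 4
  have hsint : IsIntegral ℤ s := by
    apply isInt_of_sq
    rw [hs]; exact isInt_nat p
  refine ⟨ext F s, fd_ext F s hsint.tower_top, tr_ext hTR hs hpp.pos hsF,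
    red_two hs hsF k hk hRp h2, ⟨max N (max p 2), ?_⟩, x + (c + (1 + s) / 2) ^ 2, ⟨m + 1, ?_⟩, ?_⟩
  · intro l hl hlN
    have hlN1 : N < l := lt_of_le_of_lt (le_max_left _ _) hlN
    have hlp : p < l := lt_of_le_of_lt ((le_max_left _ _).trans (le_max_right _ _)) hlN
    have hl2 : 2 < l := lt_of_le_of_lt ((le_max_right _ _).trans (le_max_right _ _)) hlN
    exact red_l hs hsF k hk hRp h2 ((Nat.coprime_primes Nat.prime_two hl).mpr hl2.ne)
      ((Nat.coprime_primes hpp hl).mpr hlp.ne) hl.ne_zero (hN l hl hlN1)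
  · refine ⟨Fin.cons (c + (1 + s) / 2) f0, ?_, ?_⟩
    · intro i
      refine Fin.cases ?_ ?_ i
      · simp only [Fin.cons_zero]
        have h2E : (2 : ℂ) ∈ ext F s := by exact_mod_cast natCast_mem (ext F s) 2
        exact ⟨(ext F s).add_mem (natCast_mem (ext F s) c)
          ((ext F s).div_mem ((ext F s).add_mem (ext F s).one_mem (mem_ext_self F s)) h2E),
          (isInt_nat c).add (w_int hs k hk)⟩
      · intro j
        simp only [Fin.cons_succ]
        exact ⟨le_ext F s (hf0 j).1, (hf0 j).2⟩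
    · rw [Fin.sum_univ_succ]
      simp only [Fin.cons_zero, Fin.cons_succ]
      rw [← hxsum]; ring
  · rintro ⟨g, hg, hsum⟩
    have hst := fun i => int_struct hs hsF k hk hRp h2 (hg i).1 (hg i).2
    choose a ha b hb hai hbi hab using hst
    have h2F : (2 : ℂ) ∈ F := by exact_mod_cast natCast_mem F 2
    have hkF : (k : ℂ) ∈ F := natCast_mem F k
    have hcF : (c : ℂ) ∈ F := natCast_mem F c
    obtain ⟨E1, E2⟩ := coef_unique' hsF (a := ∑ i, (a i ^ 2 + k * b i ^ 2))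
      (b := ∑ i, (b i ^ 2 + 2 * a i * b i)) (c := x + c ^ 2 + k) (d := 2 * c + 1)
      (sum_mem (fun i _ => F.add_mem (pow_mem (ha i) 2) (F.mul_mem hkF (pow_mem (hb i) 2))))
      (sum_mem (fun i _ => F.add_mem (pow_mem (hb i) 2)
        (F.mul_mem (F.mul_mem h2F (ha i)) (hb i))))
      (F.add_mem (F.add_mem hxF (pow_mem hcF 2)) hkF)
      (F.add_mem (F.mul_mem h2F hcF) F.one_mem) (by
        have e1 : ∑ i, g i ^ 2 = ∑ i, (a i ^ 2 + k * b i ^ 2) +
            (∑ i, (b i ^ 2 + 2 * a i * b i)) * ((1 + s) / 2) := by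
          rw [Finset.sum_mul, ← Finset.sum_add_distrib]
          refine Finset.sum_congr rfl (fun i _ => ?_)
          rw [hab i]
          linear_combination b i ^ 2 * hw
        rw [← e1, ← hsum]
        linear_combination hw)
    set aF : Fin (r + 1) → F := fun i => ⟨a i, ha i⟩ with haF
    set bF : Fin (r + 1) → F := fun i => ⟨b i, hb i⟩ with hbF
    have E1F : ∑ i, (aF i ^ 2 + (k : F) * bF i ^ 2) = xF + (c : F) ^ 2 + (k : F) := by
      apply (algebraMap F ℂ).injective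
      simp only [map_sum, map_add, map_mul, map_pow, map_natCast]
      exact E1
    have E2F : ∑ i, (bF i ^ 2 + 2 * aF i * bF i) = 2 * (c : F) + 1 := by
      apply (algebraMap F ℂ).injective
      simp only [map_sum, map_add, map_mul, map_pow, map_natCast, map_ofNat, map_one]
      exact E2
    have hre : ∀ (φ : F →+* ℂ) (y : F), φ y = ((φ y).re : ℂ) := by
      intro φ y
      apply Complex.ext
      · simp
      · simp [hTR φ y]
    have E1R : ∀ φ : F →+* ℂ, ∑ i, ((φ (aF i)).re ^ 2 + (k : ℝ) * (φ (bF i)).re ^ 2) =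
        (φ xF).re + (c : ℝ) ^ 2 + k := by
      intro φ
      have h := congrArg φ E1F
      simp only [map_sum, map_add, map_mul, map_pow, map_natCast] at h
      obtain ⟨α, hα⟩ : ∃ α : Fin (r + 1) → ℝ, ∀ i, φ (aF i) = (α i : ℂ) := ⟨_, fun i => hre φ _⟩
      obtain ⟨β, hβ⟩ : ∃ β : Fin (r + 1) → ℝ, ∀ i, φ (bF i) = (β i : ℂ) := ⟨_, fun i => hre φ _⟩
      obtain ⟨γ, hγ⟩ : ∃ γ : ℝ, φ xF = (γ : ℂ) := ⟨_, hre φ _⟩
      simp only [hα, hβ, hγ, Complex.ofReal_re] at h ⊢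
      exact_mod_cast h
    have E2R : ∀ φ : F →+* ℂ, ∑ i, ((φ (bF i)).re ^ 2 + 2 * (φ (aF i)).re * (φ (bF i)).re) =
        2 * (c : ℝ) + 1 := by
      intro φ
      have h := congrArg φ E2F
      simp only [map_sum, map_add, map_mul, map_pow, map_natCast, map_one, map_ofNat] at h
      obtain ⟨α, hα⟩ : ∃ α : Fin (r + 1) → ℝ, ∀ i, φ (aF i) = (α i : ℂ) := ⟨_, fun i => hre φ _⟩
      obtain ⟨β, hβ⟩ : ∃ β : Fin (r + 1) → ℝ, ∀ i, φ (bF i) = (β i : ℂ) := ⟨_, fun i => hre φ _⟩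
      simp only [hα, hβ, Complex.ofReal_re] at h ⊢
      exact_mod_cast h
    have hsz : ∀ φ : F →+* ℂ, ∑ i, (φ (bF i)).re ^ 2 < 2 := by
      intro φ
      refine size_real (fun i => (φ (aF i)).re) (fun i => (φ (bF i)).re) (φ xF).re sr c k
        (by rw [hsr2, hpkR]) hs4 ?_ hc1 hc2 (E1R φ) (E2R φ)
      rw [hsr2]
      have := hM φ
      nlinarith
    have hpos : ∀ φ : F →+* ℂ, 0 < ∑ i, (φ (bF i)).re ^ 2 := by
      intro φ
      rcases (Finset.sum_nonneg (fun i _ => sq_nonneg ((φ (bF i)).re)) :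
        0 ≤ ∑ i, (φ (bF i)).re ^ 2).lt_or_eq with h | h
      · exact h
      · exfalso
        have h0 : ∀ i, (φ (bF i)).re = 0 := by
          intro i
          have := (Finset.sum_eq_zero_iff_of_nonneg
            (fun i _ => sq_nonneg ((φ (bF i)).re))).mp h.symm i (Finset.mem_univ i)
          exact pow_eq_zero_iff (by norm_num) |>.mp this
        have h1 := E2R φ
        simp [h0] at h1
        have : (0 : ℝ) ≤ c := Nat.cast_nonneg c
        linarith
    have hTφ : ∀ φ : F →+* ℂ, φ (∑ i, bF i ^ 2) = ((∑ i, (φ (bF i)).re ^ 2 : ℝ) : ℂ) := by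
      intro φ
      obtain ⟨β, hβ⟩ : ∃ β : Fin (r + 1) → ℝ, ∀ i, φ (bF i) = (β i : ℂ) := ⟨_, fun i => hre φ _⟩
      simp only [map_sum, map_pow, hβ, Complex.ofReal_re]
      push_cast
      rfl
    have hT : ∑ i, bF i ^ 2 = 1 := by
      have h0 : ∑ i, bF i ^ 2 - 1 = 0 := by
        apply int_small
        · refine (IsIntegral.sum _ (fun i _ => ?_)).sub isIntegral_one
          apply IsIntegral.pow
          have h3 : IsIntegral ℤ ((algebraMap F ℂ) (bF i)) := hbi i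
          exact (isIntegral_algebraMap_iff (algebraMap F ℂ).injective).mp h3
        · intro φ
          rw [map_sub, hTφ φ, map_one, ← Complex.ofReal_one, ← Complex.ofReal_sub,
            Complex.norm_real, Real.norm_eq_abs, abs_lt]
          constructor
          · linarith [hpos φ]
          · linarith [hsz φ]
      exact sub_eq_zero.mp h0
    obtain ⟨i0, hi0⟩ : ∃ i, bF i ≠ 0 := by
      by_contra hall
      push Not at hall
      simp [hall] at hT
    have hle : ∀ φ : F →+* ℂ, ‖φ (bF i0)‖ ≤ 1 := by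
      intro φ
      have h1 : ∑ i, (φ (bF i)).re ^ 2 = 1 := by
        have := hTφ φ
        rw [hT, map_one] at this
        exact_mod_cast this.symm
      have h3 : (φ (bF i0)).re ^ 2 ≤ 1 := by
        rw [← h1]
        exact Finset.single_le_sum (f := fun i => (φ (bF i)).re ^ 2)
          (fun i _ => sq_nonneg _) (Finset.mem_univ i0)
      rw [hre φ (bF i0), Complex.norm_real, Real.norm_eq_abs]
      exact abs_le_one_iff_mul_self_le_one.mpr (by nlinarith)
    have hbi0 : IsIntegral ℤ (bF i0) := by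
      have h3 : IsIntegral ℤ ((algebraMap F ℂ) (bF i0)) := hbi i0
      exact (isIntegral_algebraMap_iff (algebraMap F ℂ).injective).mp h3
    obtain ⟨n, hn, hbn⟩ := NumberField.Embeddings.pow_eq_one_of_norm_le_one _ ℂ hi0 hbi0 hle
    set φ0 : F →+* ℂ := algebraMap F ℂ with hφ0
    have hreb : ∀ i, b i = (((φ0 (bF i)).re : ℝ) : ℂ) := fun i => hre φ0 (bF i)
    have h1 : ∑ i, (φ0 (bF i)).re ^ 2 = 1 := by
      have := hTφ φ0
      rw [hT, map_one] at this
      exact_mod_cast this.symm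
    have hb0sq : (φ0 (bF i0)).re ^ 2 = 1 := by
      have h3 : ‖φ0 (bF i0)‖ ^ n = 1 := by rw [← norm_pow, ← map_pow, hbn, map_one, norm_one]
      have h4 : ‖φ0 (bF i0)‖ = 1 := (pow_eq_one_iff_of_nonneg (norm_nonneg _) hn.ne').mp h3
      rw [hre φ0 (bF i0), Complex.norm_real, Real.norm_eq_abs] at h4
      rw [← sq_abs, h4, one_pow]
    rw [Fin.sum_univ_succAbove _ i0, hb0sq] at h1
    have h5 : ∑ j, (φ0 (bF (i0.succAbove j))).re ^ 2 = 0 := by linarith
    have h6 : ∀ j, b (i0.succAbove j) = 0 := by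
      intro j
      have := (Finset.sum_eq_zero_iff_of_nonneg
        (fun j _ => sq_nonneg ((φ0 (bF (i0.succAbove j))).re))).mp h5 j (Finset.mem_univ j)
      rw [hreb, pow_eq_zero_iff (by norm_num) |>.mp this]
      simp
    have hb0 : b i0 ^ 2 = 1 := by
      rw [hreb i0]
      exact_mod_cast hb0sq
    rw [Fin.sum_univ_succAbove _ i0] at E1 E2
    simp only [h6] at E1 E2
    have h7 : a i0 * b i0 = c := by
      have : ∑ i : Fin r, ((0 : ℂ) ^ 2 + 2 * a (i0.succAbove i) * 0) = 0 := by simp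
      rw [this, hb0] at E2
      linear_combination E2 / 2
    have h8 : a i0 ^ 2 = (c : ℂ) ^ 2 := by
      rw [← h7, mul_pow, hb0, mul_one]
    apply hr
    refine ⟨fun j => a (i0.succAbove j), fun j => ⟨ha _, hai _⟩, ?_⟩
    have h9 : ∑ i : Fin r, (a (i0.succAbove i) ^ 2 + (k : ℂ) * 0 ^ 2) =
        ∑ i : Fin r, a (i0.succAbove i) ^ 2 := by simp
    rw [h9, h8, hb0] at E1
    linear_combination -E1

theorem main (r : ℕ) : ∃ F : IntermediateField ℚ ℂ, FiniteDimensional ℚ F ∧ TR F ∧ Red F 2 ∧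
      (∃ N : ℕ, ∀ l : ℕ, l.Prime → N < l → Red F l) ∧
      ∃ x : ℂ, (∃ m, SS F m x) ∧ ¬ SS F r x := by
  induction r with
  | zero =>
    refine ⟨⊥, inferInstance, ?_, red_bot 2 Nat.prime_two, ⟨0, fun l hl _ => red_bot l hl⟩, 1,
      ⟨1, fun _ => 1, fun _ => ⟨one_mem _, isIntegral_one⟩, by simp⟩, ?_⟩
    · intro φ x
      obtain ⟨q, hq⟩ := IntermediateField.mem_bot.mp x.2
      have : x = algebraMap ℚ (⊥ : IntermediateField ℚ ℂ) q := Subtype.ext hq.symm
      rw [this]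
      have h2 : φ (algebraMap ℚ (⊥ : IntermediateField ℚ ℂ) q) = (q : ℂ) := by
        rw [← RingHom.comp_apply]
        simp
      rw [h2]
      simp
    · rintro ⟨f, _, h⟩
      simp at h
  | succ r ih =>
    obtain ⟨F, hfd, hTR, h2, ⟨N, hN⟩, x, ⟨m, hm⟩, hr⟩ := ih
    exact step F hfd hTR h2 N hN x m hm r hr

theorem stmE : StmE := by
  intro n
  obtain ⟨F, hfd, hTR, _, _, x, hm, hr⟩ := main n
  exact ⟨F, hfd, hTR, x, hm, hr⟩

end Pool.Agent.TH644.J209
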