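import Pool.Agent.TH37.RF.Defs
import Pool.Agent.H854R3.CR.Stmts

set_option autoImplicit false

namespace Pool.Agent.TH644.RFTRACE

open Pool.Agent.H854R3.CR

/-- block permutation -/
def blk {e d : ℕ} (ρ : Fin e → Equiv.Perm (Fin d)) : Equiv.Perm (Fin (e * d)) :=
  finProdFinEquiv.symm.trans ((Equiv.prodShear (Equiv.refl (Fin e)) ρ).trans finProdFinEquiv)

lemma blk_apply {e d : ℕ} (ρ : Fin e → Equiv.Perm (Fin d)) (j : Fin e) (k : Fin d) :
    blk ρ (finProdFinEquiv (j, k)) = finProdFinEquiv (j, ρ j k) := by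
  simp [blk]

lemma blk_inj {e d : ℕ} : Function.Injective (blk (e := e) (d := d)) := by
  intro ρ ρ' h
  funext j
  ext k
  have h1 := congrArg (fun f => f (finProdFinEquiv (j, k))) h
  simp only [blk_apply] at h1
  have h2 := finProdFinEquiv.injective h1
  simp only [Prod.mk.injEq, true_and] at h2
  rw [h2]

lemma prod_blocks {M : Type*} [Monoid M] {e d : ℕ} (f : Fin (e * d) → M) :
    (List.ofFn f).prod =
      (List.ofFn fun j : Fin e => (List.ofFn fun k : Fin d => f (finProdFinEquiv (j, k))).prod).prod := by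
  rw [List.ofFn_mul, List.prod_flatten, List.map_ofFn]
  congr 2
  funext j
  simp only [Function.comp]
  congr 2
  funext k
  congr 1
  apply Fin.ext
  simp [finProdFinEquiv, Nat.add_comm, Nat.mul_comm]

theorem trace_PI {F C : Type} [Field F] [Finite F] [Ring C] [Algebra F C] (B : Submodule F C)
    (d : ℕ) (c : Equiv.Perm (Fin d) → F) (hc : c 1 = 1)
    (hid : ∀ a : Fin d → C, (∀ i, a i ∈ B) →
      ∑ π, c π • (List.ofFn fun k => a (π k)).prod = 0) :
    PIOn (B : Set C) := by
  classical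
  obtain ⟨p, hp⟩ := CharP.exists F
  have : Fact p.Prime := ⟨CharP.char_is_prime F p⟩
  let : Algebra (ZMod p) F := ZMod.algebra F p
  have : Fintype F := Fintype.ofFinite F
  set e := Fintype.card (F ≃ₐ[ZMod p] F) with he
  let τ : Fin e ≃ (F ≃ₐ[ZMod p] F) := (Fintype.equivFin _).symm
  obtain ⟨t, ht⟩ : ∃ t : F, Algebra.trace (ZMod p) F t = 1 := by
    exact Algebra.trace_surjective (ZMod p) F 1
  -- the coefficients
  let cf : (Fin e → Equiv.Perm (Fin d)) → ZMod p := fun ρ =>
    Algebra.trace (ZMod p) F (t * ∏ j, τ j (c (ρ j)))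
  let cz : (Fin e → Equiv.Perm (Fin d)) → ℤ := fun ρ => ((cf ρ).val : ℤ)
  have hcz : ∀ ρ (x : C), cz ρ • x = (∑ σ : F ≃ₐ[ZMod p] F, σ (t * ∏ j, τ j (c (ρ j)))) • x := by
    intro ρ x
    rw [← trace_eq_sum_automorphisms]
    have h1 : cz ρ • x = ((cz ρ : ℤ) : F) • x := by rw [Int.cast_smul_eq_zsmul]
    rw [h1]
    congr 1
    simp only [cz, Int.cast_natCast]
    have h2 : (((cf ρ).val : ℕ) : F) = algebraMap (ZMod p) F (((cf ρ).val : ℕ) : ZMod p) := by
      rw [map_natCast]
    rw [h2, ZMod.natCast_zmod_val]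
  have hcf1 : cf 1 = 1 := by
    simp only [cf, Pi.one_apply, hc, map_one, Finset.prod_const_one, mul_one]
    exact ht
  have hcz1 : cz 1 = 1 := by
    simp only [cz, hcf1, ZMod.val_one, Nat.cast_one]
  refine ⟨e * d, Function.extend blk cz 0, blk 1, ?_, ?_⟩
  · rw [blk_inj.extend_apply, hcz1]
  · intro a ha
    rw [← Fintype.sum_of_injective blk blk_inj
      (fun ρ => cz ρ • (List.ofFn fun k => a (blk ρ k)).prod)
      (fun π => Function.extend blk cz 0 π • (List.ofFn fun k => a (π k)).prod)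
      (by
        intro π hπ
        rw [Function.extend_apply' _ _ _ (by
          rintro ⟨ρ, hρ⟩
          exact hπ ⟨ρ, hρ⟩)]
        simp)
      (by
        intro ρ
        rw [blk_inj.extend_apply])]
    let P : (F ≃ₐ[ZMod p] F) → Fin e → C := fun σ j =>
      ∑ π : Equiv.Perm (Fin d), σ (τ j (c π)) •
        (List.ofFn fun k => a (finProdFinEquiv (j, π k))).prod
    have hP : ∀ σ, MultilinearMap.mkPiAlgebraFin F e C (P σ) = 0 := by
      intro σ
      apply MultilinearMap.map_coord_zero _ (τ.symm σ⁻¹)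
      simp only [P, Equiv.apply_symm_apply]
      have h1 : ∀ x : F, σ (σ⁻¹ x) = x := fun x => by
        rw [← AlgEquiv.mul_apply, mul_inv_cancel]; rfl
      simp only [h1]
      exact hid (fun k => a (finProdFinEquiv (τ.symm σ⁻¹, k))) (fun k => ha _)
    have hP2 : ∀ σ : F ≃ₐ[ZMod p] F, MultilinearMap.mkPiAlgebraFin F e C (P σ) =
        ∑ ρ : Fin e → Equiv.Perm (Fin d), (∏ j, σ (τ j (c (ρ j)))) •
          (List.ofFn fun k => a (blk ρ k)).prod := by
      intro σ
      simp only [P]
      rw [MultilinearMap.map_sum]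
      refine Finset.sum_congr rfl (fun ρ _ => ?_)
      rw [MultilinearMap.map_smul_univ, MultilinearMap.mkPiAlgebraFin_apply, prod_blocks]
      congr 3
      funext j
      congr 1
      congr 1
      funext k
      rw [blk_apply]
    have hsum : ∑ σ : F ≃ₐ[ZMod p] F, σ t • MultilinearMap.mkPiAlgebraFin F e C (P σ) = 0 := by
      simp [hP]
    simp only [hP2, Finset.smul_sum] at hsum
    rw [Finset.sum_comm] at hsum
    rw [← hsum]
    refine Finset.sum_congr rfl (fun ρ _ => ?_)
    rw [hcz, Finset.sum_smul]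
    refine Finset.sum_congr rfl (fun σ _ => ?_)
    rw [smul_smul, map_mul, map_prod]

end Pool.Agent.TH644.RFTRACE
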